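import Pool.Agent.NCF.Main3
import Pool.Agent.NCF.Letters
import Pool.Agent.NCF.FF.Final
import Pool.Agent.Helper88.UF.Assembly

/-!
# Sparse noncommutative polynomials factor in polynomial time

A noncommutative polynomial over a field `k` in the variables `x_0, x_1, x_2, ...` is given by
the list of its nonzero terms, each a word (a list of indices of variables) with its coefficient.
For the rational numbers and for every finite field there is a deterministic polynomial time
algorithm (a multi-stack Turing machine in the sense of Mathlib) which writes every nonconstant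
polynomial as a product of irreducible ones.
-/

set_option autoImplicit false

namespace Pool.Agent.Results.MP_825bd2_lc.SparseFactorization

/-- Two bit strings as one: the bits of `u`, each preceded by `true`, then `false`, then `v`. -/
def pairCode (u v : List Bool) : List Bool := (u.flatMap fun b => [true, b]) ++ false :: v

/-- A list of objects: the codes of the members, one after the other, each made recognisable by
`pairCode`. -/
def listCode {α : Type} (e : α → List Bool) : List α → List Bool
  | [] => []
  | a :: l => pairCode (e a) (listCode e l)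

/-- A rational number: sign, absolute value of the numerator in binary, denominator in binary. -/
def ratCode (q : ℚ) : List Bool :=
  pairCode (pairCode [decide (q.num < 0)] q.num.natAbs.bits) q.den.bits

section general

variable {k : Type}

/-- A term: a word, given by the indices of its letters in binary, and its coefficient, which is
coded by `c`. -/
def termCode (c : k → List Bool) (t : List ℕ × k) : List Bool :=
  pairCode (listCode Nat.bits t.1) (c t.2)

/-- A list of terms. -/
def polyCode (c : k → List Bool) : List (List ℕ × k) → List Bool := listCode (termCode c)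

/-- The element of the free algebra with the given terms. -/
noncomputable def toFree [Field k] (l : List (List ℕ × k)) : FreeAlgebra k ℕ :=
  (l.map fun t => t.2 • (t.1.map (FreeAlgebra.ι k)).prod).sum

/-- Sparse representation: the words are different and the coefficients are not zero. -/
def IsSparse [Field k] (l : List (List ℕ × k)) : Prop :=
  (l.map Prod.fst).Nodup ∧ ∀ t ∈ l, t.2 ≠ 0

/-- Nonconstant polynomials over `k` in sparse representation, with coefficients coded by `c`, can
be factored into irreducible ones (in sparse representation, and in the variables of the given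
polynomial) by a deterministic algorithm in polynomial time. -/
def FactorsInPolyTime (k : Type) [Field k] (c : k → List Bool) : Prop :=
  ∃ G : List (List ℕ × k) → List (List (List ℕ × k)),
    Nonempty (Turing.TM2ComputableInPolyTime (polyCode c) (listCode (polyCode c)) G) ∧
    ∀ l : List (List ℕ × k), IsSparse l → (∃ t ∈ l, t.1 ≠ []) →
      (∀ g ∈ G l, IsSparse g ∧ Irreducible (toFree g) ∧
        ∀ s ∈ g, ∀ x ∈ s.1, ∃ t ∈ l, x ∈ t.1) ∧
      ((G l).map toFree).prod = toFree l

end general

lemma pr_eq (u v : List Bool) : Pool.Agent.PolyTime.pr u v = pairCode u v := by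
  induction u with
  | nil => rfl
  | cons b u ih =>
    rw [Pool.Agent.PolyTime.pr_cons, ih]
    rfl

lemma encList_eq {α : Type} [Pool.Agent.PolyTime.PEnc α] (e : α → List Bool)
    (h : ∀ a, Pool.Agent.PolyTime.enc a = e a) (l : List α) :
    Pool.Agent.PolyTime.enc l = listCode e l := by
  induction l with
  | nil => rfl
  | cons a l ih => rw [Pool.Agent.PolyTime.enc_cons, pr_eq, ih, h, listCode]

lemma enc_eq {k : Type} [Pool.Agent.PolyTime.PEnc k] (c : k → List Bool)
    (h : ∀ a : k, Pool.Agent.PolyTime.enc a = c a) (l : List (List ℕ × k)) :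
    Pool.Agent.PolyTime.enc l = polyCode c l := by
  refine encList_eq (termCode c) (fun t => ?_) l
  rw [Pool.Agent.PolyTime.enc_prod, pr_eq, encList_eq Nat.bits (fun _ => rfl), termCode, h]

lemma enc_rat_eq (q : ℚ) : Pool.Agent.PolyTime.enc q = ratCode q := by
  rw [Pool.Agent.PolyTime.enc_rat, Pool.Agent.PolyTime.enc_prod, pr_eq,
    Pool.Agent.PolyTime.enc_int, Pool.Agent.PolyTime.enc_prod, pr_eq]
  rfl

/-! ### the variables of the factors -/

section letters

variable {k : Type} [Field k]

lemma coeff_ncK_eq_zero {l : List (List ℕ × k)} {w : List ℕ} (h : w ∉ l.map Prod.fst) :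
    (Pool.NCF.FF.ncK l).coeff (FreeMonoid.ofList w) = 0 :=
  Pool.NCF.FF.coeff_ncK_of_notMem h

/-- The variables of the factors occur in the product. -/
lemma letters {l : List (List ℕ × k)} {L : List (List (List ℕ × k))} (hl : IsSparse l)
    (hne : l ≠ []) (hL : ∀ g ∈ L, IsSparse g) (hp : (L.map toFree).prod = toFree l) :
    ∀ g ∈ L, ∀ s ∈ g, ∀ x ∈ s.1, ∃ t ∈ l, x ∈ t.1 := by
  intro g hg s hs x hx
  by_contra hcon
  have h1 : (L.map Pool.NCF.FF.ncK).prod = Pool.NCF.FF.ncK l := by
    have h2 := congrArg (FreeAlgebra.equivMonoidAlgebraFreeMonoid (R := k) (X := ℕ)) hp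
    rw [map_list_prod, List.map_map] at h2
    have h3 : ∀ m : List (List ℕ × k), FreeAlgebra.equivMonoidAlgebraFreeMonoid (toFree m) =
        Pool.NCF.FF.ncK m := Pool.NCF.FF.equiv_polyOf
    rw [h3] at h2
    rw [← h2]
    congr 1
    exact List.map_congr_left fun m _ => (h3 m).symm
  have h4 : Pool.NCF.NoLet x (L.map Pool.NCF.FF.ncK).prod := by
    rw [h1]
    intro w hw
    apply Pool.NCF.FF.coeff_ncK_of_notMem
    intro h
    obtain ⟨t, ht, rfl⟩ := List.mem_map.1 h
    exact hcon ⟨t, ht, hw⟩
  have h5 := Pool.NCF.NoLet.of_prod _ (by
    rw [h1]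
    exact Pool.NCF.FF.ncK_ne_zero hl hne) h4 _ (List.mem_map.2 ⟨g, hg, rfl⟩) s.1 hx
  rw [Pool.NCF.FF.coeff_ncK_of_mem (hL g hg).1 hs] at h5
  exact (hL g hg).2 s hs h5

end letters

/-- From the internal notion of computability to the one of Mathlib. -/
lemma factors_of {k : Type} [Field k] [Pool.Agent.PolyTime.PEnc k] (c : k → List Bool)
    (hc : ∀ a : k, Pool.Agent.PolyTime.enc a = c a)
    (h : ∃ G : List (List ℕ × k) → List (List (List ℕ × k)), Pool.Agent.PolyTime.PolyTime G ∧
      ∀ l : List (List ℕ × k), IsSparse l → (∃ t ∈ l, t.1 ≠ []) →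
        (∀ g ∈ G l, IsSparse g ∧ Irreducible (toFree g)) ∧
          ((G l).map toFree).prod = toFree l) : FactorsInPolyTime k c := by
  obtain ⟨G, hG, hspec⟩ := h
  refine ⟨G, ?_, fun l hl hne => ?_⟩
  · have h1 := hG.tm2
    have h2 : (Pool.Agent.PolyTime.enc : List (List ℕ × k) → List Bool) = polyCode c :=
      funext (enc_eq c hc)
    have h3 : (Pool.Agent.PolyTime.enc : List (List (List ℕ × k)) → List Bool) =
        listCode (polyCode c) := funext (encList_eq (polyCode c) (enc_eq c hc))
    rwa [h2, h3] at h1
  · obtain ⟨h1, h2⟩ := hspec l hl hne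
    have h3 : l ≠ [] := by
      obtain ⟨t, ht, _⟩ := hne
      exact List.ne_nil_of_mem ht
    refine ⟨fun g hg => ⟨(h1 g hg).1, (h1 g hg).2, ?_⟩, h2⟩
    exact letters hl h3 (fun g hg => (h1 g hg).1) h2 g hg

/-- **Factorisation of sparse noncommutative polynomials in deterministic polynomial time**, over
the rationals (numerators and denominators in binary) and over every finite field (elements coded
by any fixed code). -/
theorem result : FactorsInPolyTime ℚ ratCode ∧
    ∀ (k : Type) [Field k] [Finite k] (c : k → List Bool), Function.Injective c →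
      FactorsInPolyTime k c := by
  constructor
  · obtain ⟨F, hF, hU⟩ := Pool.Agent.Helper88.UF.exists_uniFac
    exact factors_of ratCode enc_rat_eq (Pool.NCF.nc_factorisation F hF hU)
  · intro k _ _ c hc
    let _ : Pool.Agent.PolyTime.PEnc k := ⟨c, hc⟩
    exact factors_of c (fun _ => rfl) (Pool.NCF.FF.nc_factorisation k)

end Pool.Agent.Results.MP_825bd2_lc.SparseFactorization
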